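import Pool.Agent.H83.UE.Targets

/-!
# (OFF) off-diagonal terms for products
-/

set_option autoImplicit false

open Polynomial MeasureTheory Filter Topology Set
open scoped OnePoint ComplexConjugate ComplexOrder Laplacian ENNReal

open Pool.Agent.H83.UE

namespace Pool.Agent.H47.UDA

theorem enorm_msum (s : Multiset ℂ) (f : ℂ → ℂ) :
    ‖(s.map f).sum‖ₑ ≤ (s.map fun x => ‖f x‖ₑ).sum := by
  induction s using Multiset.induction_on with
  | empty => simp
  | cons a s ih =>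
    rw [Multiset.map_cons, Multiset.sum_cons, Multiset.map_cons, Multiset.sum_cons]
    exact (enorm_add_le _ _).trans (add_le_add le_rfl ih)

theorem enorm_msum_le (s : Multiset ℂ) (f : ℂ → ℂ) (M : ℝ≥0∞) (h : ∀ x, ‖f x‖ₑ ≤ M) :
    ‖(s.map f).sum‖ₑ ≤ (Multiset.card s : ℝ≥0∞) * M := by
  induction s using Multiset.induction_on with
  | empty => simp
  | cons a s ih =>
    rw [Multiset.map_cons, Multiset.sum_cons, Multiset.card_cons]
    refine (enorm_add_le _ _).trans ((add_le_add (h a) ih).trans (le_of_eq ?_))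
    push_cast
    ring

theorem enorm_prodC {ι : Type} (s : Finset ι) (f : ι → ℂ) :
    ‖∏ i ∈ s, f i‖ₑ = ∏ i ∈ s, ‖f i‖ₑ := by
  classical
  induction s using Finset.induction_on with
  | empty => simp
  | insert a s ha ih => rw [Finset.prod_insert ha, Finset.prod_insert ha, enorm_mul, ih]

theorem enorm_div_le' (a b : ℂ) : ‖a / b‖ₑ ≤ ‖a‖ₑ / ‖b‖ₑ := by
  by_cases hb : b = 0
  · rw [hb, div_zero, enorm_zero]
    exact bot_le
  · rw [div_eq_mul_inv, enorm_mul, enorm_inv hb, ← div_eq_mul_inv]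

theorem conj_msum (s : Multiset ℂ) (f : ℂ → ℂ) :
    (s.map fun x => conj (f x)).sum = conj (s.map f).sum := by
  induction s using Multiset.induction_on with
  | empty => simp
  | cons a s ih =>
    rw [Multiset.map_cons, Multiset.sum_cons, Multiset.map_cons, Multiset.sum_cons, ih, map_add]

section

variable {d : ℕ}

theorem card_roots_le (h1 : T_IT) (hd : 1 ≤ d) (g : RatMap d) (n : ℕ) (z : ℂ) :
    Multiset.card (g.fib n z).roots ≤ d ^ n := by
  obtain ⟨hP, hQ, -, -, -⟩ := h1 d hd g n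
  refine (Polynomial.card_roots' _).trans ?_
  unfold RatMap.fib
  refine (Polynomial.natDegree_sub_le _ _).trans (max_le hP ?_)
  exact (Polynomial.natDegree_C_mul_le _ _).trans hQ

/-- the value for `l ∉ I ∪ J` -/
theorem fac_out (h1 : T_IT) (hd : 1 ≤ d) (g : RatMap d) (n : ℕ) (a b : Prop) [Decidable a]
    [Decidable b] (ha : ¬ a) (hb : ¬ b) (u : ℂ → ℂ) (t : ℝ≥0∞) (hu : ∀ x, ‖u x‖ₑ ≤ t) (z : ℂ) :
    ‖fac g n a b u z‖ₑ ≤ (d : ℝ≥0∞) ^ n * t := by
  unfold fac
  refine (enorm_msum_le _ _ t fun x => ?_).trans (mul_le_mul_left ?_ t)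
  · rw [if_neg ha, if_neg hb, map_one, mul_one, div_one]
    exact hu x
  · exact_mod_cast card_roots_le h1 hd g n z

/-- the integral for `l ∈ I ∩ J` -/
theorem fac_in (h1 : T_IT) (h2 : T_CON) (hd : 1 ≤ d) (g : RatMap d) (n : ℕ) (a b : Prop)
    [Decidable a] [Decidable b] (ha : a) (hb : b) (u : ℂ → ℂ) (hu : Measurable u) :
    ∫⁻ z, ‖fac g n a b u z‖ₑ ≤ ∫⁻ x, ‖u x‖ₑ := by
  obtain ⟨hP, hQ, hPQ, hc, -⟩ := h1 d hd g n
  have hD : 1 ≤ d ^ n := Nat.one_le_pow _ _ hd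
  have h := (h2 (d ^ n) _ _ hD hc hP hQ hPQ (fun x => ‖u x‖ₑ) hu.enorm).2
  refine le_trans (lintegral_mono fun z => ?_) h
  unfold fac
  refine (enorm_msum _ _).trans ?_
  change ((g.fib n z).roots.map _).sum ≤ ((g.fib n z).roots.map _).sum
  refine Multiset.sum_map_le_sum_map _ _ fun x _ => ?_
  rw [if_pos ha, if_pos hb]
  refine (enorm_div_le' _ _).trans (le_of_eq ?_)
  change _ = ‖u x‖ₑ / ‖g.der n x‖ₑ ^ 2
  rw [enorm_mul, pow_two]
  congr 2
  simp [enorm, nnnorm]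

/-- the value for `l ∈ I \ J` -/
theorem fac_left (g : RatMap d) (n : ℕ) (a b : Prop) [Decidable a] [Decidable b] (ha : a)
    (hb : ¬ b) (u : ℂ → ℂ) (z : ℂ) :
    fac g n a b u z = ((g.fib n z).roots.map fun x => u x / g.der n x).sum := by
  unfold fac
  congr 1
  refine Multiset.map_congr rfl fun x _ => ?_
  rw [if_pos ha, if_neg hb, map_one, mul_one]

/-- the value for `l ∈ J \ I` -/
theorem fac_right (g : RatMap d) (n : ℕ) (a b : Prop) [Decidable a] [Decidable b] (ha : ¬ a)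
    (hb : b) (u : ℂ → ℂ) (z : ℂ) :
    fac g n a b u z =
      conj ((g.fib n z).roots.map fun x => conj (u x) / g.der n x).sum := by
  rw [← conj_msum]
  unfold fac
  congr 1
  refine Multiset.map_congr rfl fun x _ => ?_
  rw [if_neg ha, if_pos hb, one_mul, map_div₀, Complex.conj_conj]

theorem fac_meas (h1 : T_IT) (h6 : T_MEA) (hd : 1 ≤ d) (g : RatMap d) (n : ℕ) (a b : Prop)
    [Decidable a] [Decidable b] (u : ℂ → ℂ) (hu : Measurable u) :
    Measurable fun z => fac g n a b u z := by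
  obtain ⟨hP, hQ, hPQ, hc, -⟩ := h1 d hd g n
  have hD : 1 ≤ d ^ n := Nat.one_le_pow _ _ hd
  have hpos : 0 < (g.it n).1.natDegree ∨ 0 < (g.it n).2.natDegree := by
    rcases hPQ with h | h
    · left
      omega
    · right
      omega
  refine (h6 _ _ hc hpos).2 (fun x => u x / ((if a then g.der n x else 1) *
    conj (if b then g.der n x else 1))) ?_
  have hder : Measurable fun x => g.der n x := measurable_deriv _
  refine hu.div (Measurable.mul ?_ ?_)
  · by_cases h : a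
    · simp only [h, if_true]
      exact hder
    · simp only [h, if_false]
      exact measurable_const
  · by_cases h : b
    · simp only [h, if_true]
      exact Complex.continuous_conj.measurable.comp hder
    · simp only [h, if_false]
      exact measurable_const

end

theorem rpow_half_pow (x : ℝ≥0∞) (r : ℕ) : (x ^ (1 / 2 : ℝ)) ^ (2 * r) = x ^ r := by
  rw [← ENNReal.rpow_natCast, ← ENNReal.rpow_mul, ← ENNReal.rpow_natCast]
  congr 1
  push_cast
  ring

theorem num_fin (T κ : ℝ) (d k m n a s r : ℕ) (hT : 1 ≤ T) (hκ : 1 ≤ κ) (hκd : κ < d)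
    (hr : 1 ≤ r) (har : a + r = k - m) (hk : a + s + r ≤ k) :
    ((d : ℝ) ^ ((k - m) * n))⁻¹ * (((d : ℝ) ^ n * T) ^ a * T ^ s * (T * κ ^ n) ^ r) ≤
      T ^ k * (κ / d) ^ n := by
  have hd : (0 : ℝ) < d := by linarith
  have h1 : ((d : ℝ) ^ ((k - m) * n))⁻¹ * (((d : ℝ) ^ n * T) ^ a * T ^ s * (T * κ ^ n) ^ r) =
      T ^ (a + s + r) * ((κ / d) ^ n) ^ r := by
    rw [← har, mul_pow, mul_pow, div_pow, div_pow, pow_add T, pow_add T, ← pow_mul, ← pow_mul,
      ← pow_mul, add_mul, pow_add, mul_comm n a, mul_comm n r]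
    field_simp
  rw [h1]
  have h2 : (κ / d) ^ n ≤ 1 := pow_le_one₀ (by positivity) ((div_le_one hd).2 hκd.le)
  have h3 : ((κ / d) ^ n) ^ r ≤ (κ / d) ^ n := by
    calc ((κ / d) ^ n) ^ r ≤ ((κ / d) ^ n) ^ 1 := pow_le_pow_of_le_one (by positivity) h2 hr
      _ = _ := pow_one _
  exact mul_le_mul (pow_le_pow_right₀ hT hk) h3 (by positivity) (by positivity)

theorem pf_OFF (h1 : T_IT) (h2 : T_CON) (h3 : T_CS) (h4 : T_FP) (h5 : T_BB) (h6 : T_MEA) :
    T_OFF := by
  intro k m d hd hmk g κ hg u hu huc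
  have hd1 : 1 ≤ d := by omega
  have hum : ∀ l, Measurable (u l) := fun l => (hu l).continuous.measurable
  -- the constants
  have hM : ∀ l, ∃ M : ℝ, 0 ≤ M ∧ ∀ x, ‖u l x‖ ≤ M := by
    intro l
    obtain ⟨M, hM⟩ := (hu l).continuous.bounded_above_of_compact_support (huc l)
    exact ⟨M, (norm_nonneg _).trans (hM 0), hM⟩
  choose M hM0 hM using hM
  have hU : ∀ l, ∃ U : ℝ, 0 ≤ U ∧ ∫⁻ x, ‖u l x‖ₑ ≤ ENNReal.ofReal U := by
    intro l
    have hi : Integrable (u l) := (hu l).continuous.integrable_of_hasCompactSupport (huc l)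
    refine ⟨(∫⁻ x, ‖u l x‖ₑ).toReal, ENNReal.toReal_nonneg, ?_⟩
    rw [ENNReal.ofReal_toReal hi.2.ne]
  choose U hU0 hU using hU
  have hC1 : ∀ l, ∃ C : ℝ, 0 ≤ C ∧ ∀ n : ℕ,
      ∫⁻ z, ‖(((g l).fib n z).roots.map fun x => u l x / (g l).der n x).sum‖ₑ ^ 2 ≤
        ENNReal.ofReal (C * κ ^ n) := fun l => h5 d hd (g l) κ (hg l) (u l) (hu l) (huc l)
  choose C1 hC10 hC1 using hC1
  have hC2 : ∀ l, ∃ C : ℝ, 0 ≤ C ∧ ∀ n : ℕ,
      ∫⁻ z, ‖(((g l).fib n z).roots.map fun x => conj (u l x) / (g l).der n x).sum‖ₑ ^ 2 ≤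
        ENNReal.ofReal (C * κ ^ n) := fun l => by
    refine h5 d hd (g l) κ (hg l) (fun x => conj (u l x)) ?_ ?_
    · exact Complex.conjCLE.contDiff.comp (hu l)
    · exact (huc l).comp_left (g := fun x => conj x) (map_zero _)
  choose C2 hC20 hC2 using hC2
  obtain ⟨T, hT⟩ : ∃ T : ℝ, T = 1 + ∑ l, (M l + U l + C1 l + C2 l) := ⟨_, rfl⟩
  have hTl : ∀ l, M l + U l + C1 l + C2 l ≤ T := by
    intro l
    have := Finset.single_le_sum (f := fun l => M l + U l + C1 l + C2 l)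
      (fun i _ => add_nonneg (add_nonneg (add_nonneg (hM0 i) (hU0 i)) (hC10 i)) (hC20 i))
      (Finset.mem_univ l)
    rw [hT]
    linarith
  have hT1 : 1 ≤ T := by
    have : 0 ≤ ∑ l, (M l + U l + C1 l + C2 l) := Finset.sum_nonneg fun i _ =>
      add_nonneg (add_nonneg (add_nonneg (hM0 i) (hU0 i)) (hC10 i)) (hC20 i)
    rw [hT]
    linarith
  have hT0 : 0 ≤ T := by linarith
  refine ⟨T ^ k, by positivity, fun S I J n hIJ => ?_⟩
  -- sizes
  obtain ⟨r, hr⟩ : ∃ r, r = (I.1 \ J.1).card := ⟨_, rfl⟩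
  obtain ⟨s, hs⟩ : ∃ s, s = (I.1 ∩ J.1).card := ⟨_, rfl⟩
  obtain ⟨a, ha⟩ : ∃ a, a = ((I.1 ∪ J.1)ᶜ : Finset (Fin k)).card := ⟨_, rfl⟩
  have hIm := I.2
  have hJm := J.2
  have hrs : r + s = m := by
    rw [hr, hs]
    exact (Finset.card_sdiff_add_card_inter I.1 J.1).trans hIm
  have hrs' : (J.1 \ I.1).card + s = m := by
    rw [hs, Finset.inter_comm]
    exact (Finset.card_sdiff_add_card_inter J.1 I.1).trans hJm
  have hr2 : (J.1 \ I.1).card = r := by omega
  have hr1 : 1 ≤ r := by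
    rw [hr]
    refine Finset.card_pos.2 (Finset.nonempty_iff_ne_empty.2 fun h => hIJ ?_)
    have hsub : I.1 ⊆ J.1 := Finset.sdiff_eq_empty_iff_subset.1 h
    exact Subtype.ext (Finset.eq_of_subset_of_card_le hsub (by rw [hIm, hJm]))
  have hun : (I.1 ∪ J.1).card = m + r := by
    have := Finset.card_union_add_card_inter I.1 J.1
    rw [← hs] at this
    omega
  have hak : a + (m + r) = k := by
    have := Finset.card_compl_add_card (I.1 ∪ J.1)
    rw [Fintype.card_fin, hun] at this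
    rw [ha]
    exact this
  have hsym : (symmDiff I.1 J.1).card = 2 * r := by
    rw [symmDiff_def, Finset.sup_eq_union, Finset.card_union_of_disjoint]
    · rw [hr2, ← hr]
      ring
    · exact disjoint_sdiff_sdiff
  -- kappa
  have hkk : 1 ≤ κ ∧ κ < d := by
    have hne : (I.1 \ J.1).Nonempty := Finset.card_pos.1 (by omega)
    obtain ⟨l, -⟩ := hne
    exact ⟨(hg l).1, (hg l).2.1⟩
  obtain ⟨hκ1, hκd⟩ := hkk
  have hκ0 : 0 ≤ κ := by linarith
  -- the bound in ENNReal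
  have hcs := h3 k m S I J
    (fun l x => ‖fac (g l) n (l ∈ I.1) (l ∈ J.1) (u l) x‖ₑ)
    (fun _ => (d : ℝ≥0∞) ^ n * ENNReal.ofReal T)
    (fun l => (fac_meas h1 h6 hd1 (g l) n _ _ (u l) (hum l)).enorm)
    (fun l x hlI hlJ => fac_out h1 hd1 (g l) n _ _ hlI hlJ (u l) _ (fun y => by
      rw [← ofReal_norm]
      refine ENNReal.ofReal_le_ofReal ((hM l y).trans ?_)
      have := hTl l
      have := hU0 l
      have := hC10 l
      have := hC20 l
      linarith) x)
  have hA1 : ∏ l ∈ (I.1 ∪ J.1)ᶜ, ((d : ℝ≥0∞) ^ n * ENNReal.ofReal T) =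
      ((d : ℝ≥0∞) ^ n * ENNReal.ofReal T) ^ a := by
    rw [Finset.prod_const, ha]
  have hA2 : ∏ l ∈ I.1 ∩ J.1, ∫⁻ x, ‖fac (g l) n (l ∈ I.1) (l ∈ J.1) (u l) x‖ₑ ≤
      ENNReal.ofReal T ^ s := by
    rw [hs, ← Finset.prod_const]
    refine Finset.prod_le_prod' fun l hl => ?_
    rw [Finset.mem_inter] at hl
    refine (fac_in h1 h2 hd1 (g l) n _ _ hl.1 hl.2 (u l) (hum l)).trans ((hU l).trans ?_)
    refine ENNReal.ofReal_le_ofReal ?_
    have := hTl l
    have := hM0 l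
    have := hC10 l
    have := hC20 l
    linarith
  have hA3 : ∏ l ∈ symmDiff I.1 J.1,
      (∫⁻ x, ‖fac (g l) n (l ∈ I.1) (l ∈ J.1) (u l) x‖ₑ ^ 2) ^ (1 / 2 : ℝ) ≤
      ENNReal.ofReal (T * κ ^ n) ^ r := by
    rw [← rpow_half_pow, ← hsym, ← Finset.prod_const]
    refine Finset.prod_le_prod' fun l hl => ?_
    refine ENNReal.rpow_le_rpow ?_ (by norm_num)
    have hTC : ∀ C : ℝ, C ≤ T → ENNReal.ofReal (C * κ ^ n) ≤ ENNReal.ofReal (T * κ ^ n) :=
      fun C hC => ENNReal.ofReal_le_ofReal (mul_le_mul_of_nonneg_right hC (by positivity))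
    have h7 := hTl l
    have h8 := hM0 l
    have h9 := hU0 l
    have h10 := hC10 l
    have h11 := hC20 l
    rcases Finset.mem_symmDiff.1 hl with h | h
    · refine le_trans (le_of_eq ?_) ((hC1 l n).trans (hTC _ (by linarith)))
      refine lintegral_congr fun z => ?_
      rw [fac_left (g l) n _ _ h.1 h.2]
    · refine le_trans (le_of_eq ?_) ((hC2 l n).trans (hTC _ (by linarith)))
      refine lintegral_congr fun z => ?_
      rw [fac_right (g l) n _ _ h.2 h.1]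
      congr 1
      simp [enorm, nnnorm]
  -- the integral
  have hpair : ‖pairing g n S I J (fun x => ∏ l, u l (x l))‖ₑ ≤
      ENNReal.ofReal (((d : ℝ) ^ ((k - m) * n))⁻¹) *
        (((S.c I : ℝ≥0∞) * S.c J) ^ (1 / 2 : ℝ) *
          (((d : ℝ≥0∞) ^ n * ENNReal.ofReal T) ^ a * ENNReal.ofReal T ^ s *
            ENNReal.ofReal (T * κ ^ n) ^ r)) := by
    unfold pairing
    rw [enorm_mul]
    refine mul_le_mul' (le_of_eq ?_) ?_
    · rw [← ofReal_norm]
      congr 1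
      rw [norm_inv, norm_pow, Complex.norm_natCast]
    · refine (enorm_integral_le_lintegral_enorm _).trans (le_trans (le_of_eq ?_) (hcs.trans ?_))
      · refine lintegral_congr fun z => ?_
        rw [enorm_mul, h4, enorm_prodC]
      · rw [hA1]
        exact mul_le_mul' le_rfl (mul_le_mul' (mul_le_mul' le_rfl hA2) hA3)
  have hreal : ENNReal.ofReal (((d : ℝ) ^ ((k - m) * n))⁻¹) *
        (((S.c I : ℝ≥0∞) * S.c J) ^ (1 / 2 : ℝ) *
          (((d : ℝ≥0∞) ^ n * ENNReal.ofReal T) ^ a * ENNReal.ofReal T ^ s *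
            ENNReal.ofReal (T * κ ^ n) ^ r)) =
      ENNReal.ofReal (Real.sqrt (S.c I * S.c J) * (((d : ℝ) ^ ((k - m) * n))⁻¹ *
        (((d : ℝ) ^ n * T) ^ a * T ^ s * (T * κ ^ n) ^ r))) := by
    have e1 : ((S.c I : ℝ≥0∞) * S.c J) ^ (1 / 2 : ℝ) =
        ENNReal.ofReal (Real.sqrt (S.c I * S.c J)) := by
      rw [Real.sqrt_eq_rpow, ← ENNReal.ofReal_rpow_of_nonneg (by positivity) (by norm_num),
        ENNReal.ofReal_mul (by positivity), ENNReal.ofReal_coe_nnreal, ENNReal.ofReal_coe_nnreal]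
    have e2 : (d : ℝ≥0∞) ^ n = ENNReal.ofReal ((d : ℝ) ^ n) := by
      rw [ENNReal.ofReal_pow (by positivity), ENNReal.ofReal_natCast]
    rw [e1, e2, ← ENNReal.ofReal_mul (by positivity), ← ENNReal.ofReal_pow (by positivity),
      ← ENNReal.ofReal_pow hT0, ← ENNReal.ofReal_pow (by positivity),
      ← ENNReal.ofReal_mul (by positivity), ← ENNReal.ofReal_mul (by positivity),
      ← ENNReal.ofReal_mul (by positivity), ← ENNReal.ofReal_mul (by positivity)]
    congr 1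
    ring
  rw [hreal] at hpair
  have hnn : 0 ≤ Real.sqrt (S.c I * S.c J) * (((d : ℝ) ^ ((k - m) * n))⁻¹ *
        (((d : ℝ) ^ n * T) ^ a * T ^ s * (T * κ ^ n) ^ r)) := by positivity
  rw [← ofReal_norm] at hpair
  have hfin := (ENNReal.ofReal_le_ofReal_iff hnn).1 hpair
  refine hfin.trans ?_
  have hnum := num_fin T κ d k m n a s r hT1 hκ1 hκd hr1 (by omega) (by omega)
  calc Real.sqrt (S.c I * S.c J) * (((d : ℝ) ^ ((k - m) * n))⁻¹ *
        (((d : ℝ) ^ n * T) ^ a * T ^ s * (T * κ ^ n) ^ r))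
      ≤ Real.sqrt (S.c I * S.c J) * (T ^ k * (κ / d) ^ n) :=
        mul_le_mul_of_nonneg_left hnum (Real.sqrt_nonneg _)
    _ = _ := by ring

end Pool.Agent.H47.UDA
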